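import Mathlib

/-!
# Resonant wavevectors of Rossby waves on vertical lines

For every nonzero integer `a` there are infinitely many integers `b` such that `(a, b)` is a
primitive resonant wavevector. Let `m, w ≥ 0` be integers with `m (m + 1) = (a² + 1) w²` and `a ∣ w`;
there are infinitely many, since `(2 m + 1)² - 4 (a² + 1) w² = 1` is a Pell equation. Put
`X = 2 m + 1 + 2 w`, `u = m + 1 + w`, `v = a w` and `b = (a² + 1) w X + 1`. Then
`x + i y = (u + i v) (a + i b)` is a solution.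
-/

set_option autoImplicit false

namespace Pool.Agent.Results.MP_bbf25a_nt.EveryVerticalLine

/-- the resonance equation `(∗)` -/
def Resonant (a b x y : ℤ) : Prop :=
  x * (a ^ 2 + b ^ 2) * (a ^ 2 + b ^ 2 - 2 * a * x - 2 * b * y) =
    a * (x ^ 2 + y ^ 2) * (x ^ 2 + y ^ 2 - 2 * a * x - 2 * b * y)

/-- the primitive wavevector set `Λ'` -/
def primitiveSet : Set (ℤ × ℤ) :=
  {p | ∃ x y : ℤ, Resonant p.1 p.2 x y ∧ p.1 * x * (p.1 - x) ≠ 0 ∧
    Int.gcd (Int.gcd p.1 p.2) (Int.gcd x y) = 1}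

/-- a solution from a solution of the Pell equation -/
theorem resonant_of_pell (a m w : ℤ) (h : m ^ 2 + m = (a ^ 2 + 1) * w ^ 2) :
    Resonant a ((a ^ 2 + 1) * w * (2 * m + 1 + 2 * w) + 1)
      ((m + 1 + w) * a - a * w * ((a ^ 2 + 1) * w * (2 * m + 1 + 2 * w) + 1))
      ((m + 1 + w) * ((a ^ 2 + 1) * w * (2 * m + 1 + 2 * w) + 1) + a * w * a) := by
  obtain ⟨u, hu⟩ : ∃ u, u = m + 1 + w := ⟨_, rfl⟩
  obtain ⟨v, hv⟩ : ∃ v, v = a * w := ⟨_, rfl⟩
  obtain ⟨b, hb⟩ : ∃ b, b = (a ^ 2 + 1) * w * (2 * m + 1 + 2 * w) + 1 := ⟨_, rfl⟩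
  have key : v * b * (2 * u - 1) =
      a * ((u ^ 2 + v ^ 2) * (u ^ 2 + v ^ 2 - 2 * u) + u * (2 * u - 1)) := by
    rw [hu, hv, hb]
    linear_combination (a ^ 3 * w ^ 2 - 3 * a * w ^ 2 - 4 * a * w * m - 2 * a * w - a * m ^ 2
      - a * m - a) * h
  rw [← hb, ← hv, ← hu]
  unfold Resonant
  linear_combination ((a ^ 2 + b ^ 2) ^ 2) * key

/-- The solutions of the Pell equation, with `c = |a|`: pairs `(m, w)`. -/
def pell (c : ℤ) : ℕ → ℤ × ℤ
  | 0 => (0, 0)
  | k + 1 => ((2 * c ^ 2 + 1) * (pell c k).1 + c ^ 2 + 2 * c * (c ^ 2 + 1) * (pell c k).2,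
      c * (2 * (pell c k).1 + 1) + (2 * c ^ 2 + 1) * (pell c k).2)

theorem pell_eq (c : ℤ) (k : ℕ) :
    (pell c k).1 ^ 2 + (pell c k).1 = (c ^ 2 + 1) * (pell c k).2 ^ 2 := by
  induction k with
  | zero => simp [pell]
  | succ k ih =>
    simp only [pell]
    linear_combination ih

theorem pell_dvd (c : ℤ) (k : ℕ) : c ∣ (pell c k).2 := by
  induction k with
  | zero => simp [pell]
  | succ k ih =>
    simp only [pell]
    exact dvd_add (dvd_mul_right _ _) (Dvd.dvd.mul_left ih _)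

theorem pell_nonneg (c : ℤ) (hc : 1 ≤ c) (k : ℕ) :
    0 ≤ (pell c k).1 ∧ (k : ℤ) ≤ (pell c k).2 := by
  induction k with
  | zero => simp [pell]
  | succ k ih =>
    obtain ⟨h1, h2⟩ := ih
    have h3 : 0 ≤ (pell c k).2 := le_trans (Int.natCast_nonneg k) h2
    have hc0 : 0 ≤ c := by linarith
    simp only [pell]
    constructor
    · have : 0 ≤ 2 * c * (c ^ 2 + 1) * (pell c k).2 := by positivity
      have : 0 ≤ (2 * c ^ 2 + 1) * (pell c k).1 := by positivity
      have : 0 ≤ c ^ 2 := by positivity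
      linarith
    · push_cast
      have e1 : 0 ≤ c * (2 * (pell c k).1) := by positivity
      have e2 : 0 ≤ 2 * c ^ 2 * (pell c k).2 := by positivity
      have e3 : c * (2 * (pell c k).1 + 1) + (2 * c ^ 2 + 1) * (pell c k).2
        = c * (2 * (pell c k).1) + c + 2 * c ^ 2 * (pell c k).2 + (pell c k).2 := by ring
      rw [e3]
      linarith

/-- **Affirmative answer to Q1.** For every nonzero integer `a` there are infinitely many integers
`b` with `(a, b) ∈ Λ'`. -/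
theorem result : ∀ a : ℤ, a ≠ 0 → {b : ℤ | (a, b) ∈ primitiveSet}.Infinite := by
  intro a ha
  refine Set.infinite_of_forall_exists_gt fun B => ?_
  obtain ⟨c, hc⟩ : ∃ c : ℤ, c = |a| := ⟨_, rfl⟩
  have hc1 : 1 ≤ c := by rw [hc]; exact Int.one_le_abs ha
  have hca : c ^ 2 = a ^ 2 := by rw [hc]; exact sq_abs a
  set k : ℕ := B.natAbs + 1 with hk
  obtain ⟨m, hm⟩ : ∃ m, m = (pell c k).1 := ⟨_, rfl⟩
  obtain ⟨w, hw⟩ : ∃ w, w = (pell c k).2 := ⟨_, rfl⟩
  have h : m ^ 2 + m = (a ^ 2 + 1) * w ^ 2 := by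
    rw [hm, hw, ← hca]; exact pell_eq c k
  have haw : a ∣ w := by
    have : c ∣ w := by rw [hw]; exact pell_dvd c k
    rw [hc] at this
    exact (abs_dvd _ _).mp this
  obtain ⟨hm0, hwk⟩ := pell_nonneg c hc1 k
  rw [← hm] at hm0
  rw [← hw] at hwk
  have hkB : B < (k : ℤ) := by
    rw [hk]; push_cast
    have := le_abs_self B
    omega
  have hk1 : (1 : ℤ) ≤ (k : ℤ) := by
    rw [hk]; push_cast
    have := abs_nonneg B
    omega
  have hw1 : 1 ≤ w := by linarith
  obtain ⟨X, hX⟩ : ∃ X, X = 2 * m + 1 + 2 * w := ⟨_, rfl⟩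
  have hX1 : 1 ≤ X := by rw [hX]; linarith
  obtain ⟨b, hb⟩ : ∃ b, b = (a ^ 2 + 1) * w * X + 1 := ⟨_, rfl⟩
  have ha1 : 1 ≤ a ^ 2 := by nlinarith
  have hwX : 1 ≤ w * X := by nlinarith
  have hb1 : w * X + 1 ≤ b := by rw [hb]; nlinarith
  have hbw : w < b := by nlinarith
  have hres := resonant_of_pell a m w h
  rw [← hX, ← hb] at hres
  refine ⟨b, ⟨_, _, hres, ?_, ?_⟩, by linarith⟩
  · -- `a x (a - x) ≠ 0`
    simp only
    have hum : m + 1 + w < b := by
      have : m + 1 + w ≤ X := by rw [hX]; linarith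
      nlinarith
    have hwb : b ≤ w * b := by nlinarith
    have f1 : (m + 1 + w) * a - a * w * b ≠ 0 := by
      have : (m + 1 + w) * a - a * w * b = a * ((m + 1 + w) - w * b) := by ring
      rw [this]
      exact mul_ne_zero ha (ne_of_lt (by linarith))
    have f2 : a - ((m + 1 + w) * a - a * w * b) ≠ 0 := by
      have : a - ((m + 1 + w) * a - a * w * b) = a * (1 - (m + 1 + w) + w * b) := by ring
      rw [this]
      exact mul_ne_zero ha (ne_of_gt (by linarith))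
    exact mul_ne_zero (mul_ne_zero ha f1) f2
  · -- coprimality
    have hcop : Int.gcd a b = 1 := by
      rw [← Int.isCoprime_iff_gcd_eq_one]
      obtain ⟨t, ht⟩ := haw
      refine ⟨-((a ^ 2 + 1) * t * X), 1, ?_⟩
      rw [hb, ht]; ring
    simp only
    rw [hcop]
    simp

end Pool.Agent.Results.MP_bbf25a_nt.EveryVerticalLine
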